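import Mathlib

set_option autoImplicit false

namespace Pool.Agent.Helper98.Stubborn

open MvPolynomial

/-- `I ⊆ ℝ[x_0, …, x_n]` is a homogeneous ideal: it contains the homogeneous components of its
elements. -/
def IsHomogeneousIdeal {n : ℕ} (I : Ideal (MvPolynomial (Fin (n + 1)) ℝ)) : Prop :=
  ∀ f ∈ I, ∀ m : ℕ, homogeneousComponent m f ∈ I

/-- The common real zeros in `ℝ^(n+1)` of the polynomials in `I`. -/
def realZeros {n : ℕ} (I : Ideal (MvPolynomial (Fin (n + 1)) ℝ)) : Set (Fin (n + 1) → ℝ) :=
  {x | ∀ g ∈ I, eval x g = 0}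

/-- Every polynomial vanishing on the real zeros of `I` lies in `I`. -/
def IsRealIdeal {n : ℕ} (I : Ideal (MvPolynomial (Fin (n + 1)) ℝ)) : Prop :=
  ∀ f : MvPolynomial (Fin (n + 1)) ℝ, (∀ x ∈ realZeros I, eval x f = 0) → f ∈ I

/-- An embedded totally real projective variety `X ⊆ ℙ^n` over `ℝ`, given by its homogeneous
ideal `I ⊆ ℝ[x_0, …, x_n]`.  The condition `real_dense` (every polynomial vanishing at all
real points of the affine cone over `X` lies in `I`) says exactly that `I` is the full
(radical) homogeneous ideal of `X` and that `X(ℝ)` is Zariski dense in `X`. -/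
structure TotallyRealVariety (n : ℕ) where
  /-- the homogeneous ideal of the variety -/
  ideal : Ideal (MvPolynomial (Fin (n + 1)) ℝ)
  homogeneous : IsHomogeneousIdeal ideal
  real_dense : IsRealIdeal ideal

namespace TotallyRealVariety

variable {n : ℕ} (X : TotallyRealVariety n)

/-- The homogeneous coordinate ring `ℝ[X] = ℝ[x_0, …, x_n] / I`. -/
def CoordRing : Type := MvPolynomial (Fin (n + 1)) ℝ ⧸ X.ideal

noncomputable instance : CommRing X.CoordRing := Ideal.Quotient.commRing X.ideal

noncomputable instance : Algebra ℝ X.CoordRing := Ideal.Quotient.algebra ℝ (I := X.ideal)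

/-- The quotient map `ℝ[x_0, …, x_n] → ℝ[X]`. -/
noncomputable def toCoordRing : MvPolynomial (Fin (n + 1)) ℝ →ₐ[ℝ] X.CoordRing :=
  Ideal.Quotient.mkₐ ℝ X.ideal

/-- The graded piece `ℝ[X]_m`: classes of forms of degree `m`. -/
noncomputable def piece (m : ℕ) : Submodule ℝ X.CoordRing :=
  (homogeneousSubmodule (Fin (n + 1)) ℝ m).map X.toCoordRing.toLinearMap

/-- The affine cone over the set `X(ℝ)` of real points. -/
def realCone : Set (Fin (n + 1) → ℝ) := realZeros X.ideal

/-- The value of an element of `ℝ[X]` at a point of the real affine cone. -/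
noncomputable def evalAt (x : X.realCone) : X.CoordRing →+* ℝ :=
  Ideal.Quotient.lift X.ideal (eval x.1) (fun g hg => x.2 g hg)

/-- `F` takes nonnegative values at the real points of `X` (used for forms of even degree). -/
def Nonneg (F : X.CoordRing) : Prop := ∀ x : X.realCone, 0 ≤ X.evalAt x F

/-- `F = G_1 ^ 2 + … + G_r ^ 2` with all `G_i ∈ ℝ[X]_m`. -/
def IsSumOfSquares (m : ℕ) (F : X.CoordRing) : Prop :=
  ∃ (r : ℕ) (G : Fin r → X.CoordRing), (∀ i, G i ∈ X.piece m) ∧ F = ∑ i, G i ^ 2

/-- The finite-dimensional real vector space `ℝ[X]_2` of quadratic forms on `X`. -/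
abbrev Quadrics : Type := X.piece 2

/-- The cone `P_X ⊆ ℝ[X]_2` of nonnegative quadratic forms on `X`. -/
def nonnegQuadrics : Set X.Quadrics := {F | X.Nonneg F.1}

/-- A quadratic form `F ∈ ℝ[X]_2` is stubborn if it is nonnegative and `F ^ k` is not a sum of
squares (of elements of `ℝ[X]_k`) for every odd `k ≥ 1`. -/
def Stubborn (F : X.Quadrics) : Prop :=
  X.Nonneg F.1 ∧ ∀ k : ℕ, Odd k → ¬ X.IsSumOfSquares k (F.1 ^ k)

end TotallyRealVariety

/-- `𝓕` is a face of the convex set `P`: a nonempty convex subset such that a segment of `P` with a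
relatively interior point in `𝓕` has its endpoints in `𝓕` (Mathlib's `IsExtreme`). -/
def IsFace {V : Type} [AddCommGroup V] [Module ℝ V] (P 𝓕 : Set V) : Prop :=
  𝓕.Nonempty ∧ Convex ℝ 𝓕 ∧ IsExtreme ℝ P 𝓕

/-- The relative interior of a set in a finite-dimensional real vector space: the interior
inside its affine hull (Mathlib's `intrinsicInterior`), for the canonical vector space topology
(Mathlib's `moduleTopology`). -/
def relInterior {V : Type} [AddCommGroup V] [Module ℝ V] (C : Set V) : Set V :=
  letI : TopologicalSpace V := moduleTopology ℝ V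
  intrinsicInterior ℝ C

/-- `𝓕` is a face of the cone `P_X`. -/
def TotallyRealVariety.IsFaceOfCone {n : ℕ} (X : TotallyRealVariety n) (𝓕 : Set X.Quadrics) :
    Prop :=
  IsFace X.nonnegQuadrics 𝓕

/-- The relative interior of a subset of `ℝ[X]_2`. -/
def TotallyRealVariety.relInt {n : ℕ} (X : TotallyRealVariety n) (𝓕 : Set X.Quadrics) :
    Set X.Quadrics :=
  relInterior 𝓕

end Pool.Agent.Helper98.Stubborn
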