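import Mathlib
import Pool.Agent.Helper98.FaceLemma
import Pool.Agent.Helper98.StubbornCore
import Pool.Agent.Helper98.Stubborn.Defs

set_option autoImplicit false

namespace Pool.Agent.Helper98.Stubborn

open MvPolynomial

/-! ### The torus surface in `ℙ⁴` -/

/-- The vanishing ideal of the real cone `x₁² + x₂² = x₀² = x₃² + x₄²`. -/
noncomputable def torusIdeal : Ideal (MvPolynomial (Fin 5) ℝ) where
  carrier := {f | ∀ x ∈ StubbornCore.V, eval x f = 0}
  add_mem' := by
    intro f g hf hg x hx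
    rw [map_add, hf x hx, hg x hx, add_zero]
  zero_mem' := by
    intro x _
    rw [map_zero]
  smul_mem' := by
    intro c f hf x hx
    rw [smul_eq_mul, map_mul, hf x hx, mul_zero]

theorem mem_torusIdeal (f : MvPolynomial (Fin 5) ℝ) :
    f ∈ torusIdeal ↔ ∀ x ∈ StubbornCore.V, eval x f = 0 := Iff.rfl

theorem smul_mem_V (c : ℝ) {x : Fin 5 → ℝ} (hx : x ∈ StubbornCore.V) :
    (fun i => c * x i) ∈ StubbornCore.V := by
  obtain ⟨h1, h2⟩ := hx
  constructor
  · show (c * x 1) ^ 2 + (c * x 2) ^ 2 = (c * x 0) ^ 2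
    linear_combination c ^ 2 * h1
  · show (c * x 3) ^ 2 + (c * x 4) ^ 2 = (c * x 0) ^ 2
    linear_combination c ^ 2 * h2

/-- The torus surface. -/
noncomputable def torus : TotallyRealVariety 4 where
  ideal := torusIdeal
  homogeneous := by
    intro f hf m x hx
    -- the polynomial `∑ eval x f_j T ^ j` vanishes identically
    let Q : Polynomial ℝ := ∑ j ∈ Finset.range (f.totalDegree + 1),
      Polynomial.monomial j (eval x (homogeneousComponent j f))
    have hQ : Q = 0 := by
      apply Polynomial.funext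
      intro c
      have h1 : Polynomial.eval c Q = eval (fun i => c * x i) f := by
        conv_rhs => rw [← sum_homogeneousComponent f]
        rw [map_sum, Polynomial.eval_finsetSum]
        refine Finset.sum_congr rfl fun j _ => ?_
        rw [Polynomial.eval_monomial]
        have h0 : eval (fun i => c * x i) (homogeneousComponent j f) =
            c ^ j * eval x (homogeneousComponent j f) :=
          StubbornCore.aeval_smul_of_homogeneous
            (homogeneousComponent_isHomogeneous j f) c x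
        rw [h0, mul_comm]
      rw [h1, hf _ (smul_mem_V c hx), Polynomial.eval_zero]
    rcases Nat.lt_or_ge f.totalDegree m with hm | hm
    · rw [homogeneousComponent_eq_zero _ _ hm, map_zero]
    · have h2 : Q.coeff m = eval x (homogeneousComponent m f) := by
        rw [Polynomial.finsetSum_coeff, Finset.sum_eq_single m]
        · simp
        · intro l _ hl
          rw [Polynomial.coeff_monomial, if_neg hl]
        · intro hm'
          exact absurd (Finset.mem_range.2 (by omega)) hm'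
      rw [← h2, hQ, Polynomial.coeff_zero]
  real_dense := by
    intro f hf x hx
    exact hf x (fun g hg => hg x hx)

theorem torus_realCone (x : Fin 5 → ℝ) : x ∈ torus.realCone ↔ x ∈ StubbornCore.V := by
  constructor
  · intro hx
    have h1 : (X 1 ^ 2 + X 2 ^ 2 - X 0 ^ 2 : MvPolynomial (Fin 5) ℝ) ∈ torusIdeal := by
      intro y hy
      simp only [map_sub, map_add, map_pow, eval_X]
      linarith [hy.1]
    have h2 : (X 3 ^ 2 + X 4 ^ 2 - X 0 ^ 2 : MvPolynomial (Fin 5) ℝ) ∈ torusIdeal := by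
      intro y hy
      simp only [map_sub, map_add, map_pow, eval_X]
      linarith [hy.2]
    have h3 := hx _ h1
    have h4 := hx _ h2
    simp only [map_sub, map_add, map_pow, eval_X] at h3 h4
    exact ⟨by linarith, by linarith⟩
  · intro hx g hg
    exact hg x hx

/-- class of a polynomial in the coordinate ring -/
noncomputable def cls (f : MvPolynomial (Fin 5) ℝ) : torus.CoordRing :=
  torus.toCoordRing f

theorem cls_mem {f : MvPolynomial (Fin 5) ℝ} {m : ℕ} (hf : f.IsHomogeneous m) :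
    cls f ∈ torus.piece m :=
  ⟨f, (mem_homogeneousSubmodule m f).2 hf, rfl⟩

theorem evalAt_cls (x : torus.realCone) (f : MvPolynomial (Fin 5) ℝ) :
    torus.evalAt x (cls f) = eval x.1 f := rfl

theorem cls_eq_iff (f g : MvPolynomial (Fin 5) ℝ) :
    cls f = cls g ↔ ∀ x ∈ StubbornCore.V, eval x f = eval x g := by
  have h0 : cls f = cls g ↔ f - g ∈ torus.ideal :=
    Ideal.Quotient.eq (I := torus.ideal) (x := f) (y := g)
  rw [h0]
  constructor
  · intro h x hx
    have := h x hx
    rw [map_sub] at this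
    linarith
  · intro h x hx
    rw [map_sub, h x hx, sub_self]

/-- the base quadric `(x₀ + x₃) x₀` -/
noncomputable def F₂ : MvPolynomial (Fin 5) ℝ := (X 0 + X 3) * X 0

theorem F₂_homogeneous : F₂.IsHomogeneous 2 :=
  ((isHomogeneous_X ℝ 0).add (isHomogeneous_X ℝ 3)).mul (n := 1) (isHomogeneous_X ℝ 0)

noncomputable def q₁ : torus.piece 2 :=
  ⟨cls StubbornCore.F₁, cls_mem StubbornCore.F₁_homogeneous⟩

noncomputable def q₂ : torus.piece 2 := ⟨cls F₂, cls_mem F₂_homogeneous⟩

theorem eval_F₁ (x : Fin 5 → ℝ) : eval x StubbornCore.F₁ =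
    (x 0 + x 3) * (2 * x 0 + x 1) := by
  rw [StubbornCore.F₁]
  simp [map_ofNat]

theorem eval_F₂ (x : Fin 5 → ℝ) : eval x F₂ = (x 0 + x 3) * x 0 := by
  rw [F₂]
  simp

/-- sign facts on the cone -/
theorem prod_nonneg {x : Fin 5 → ℝ} (hx : x ∈ StubbornCore.V) (u : ℝ)
    (hu : u ^ 2 ≤ x 0 ^ 2) : 0 ≤ (x 0 + x 3) * (x 0 + u) := by
  obtain ⟨_, h2⟩ := hx
  have h3 : x 3 ^ 2 ≤ x 0 ^ 2 := by nlinarith [sq_nonneg (x 4)]
  have h4 := sq_le_sq.1 hu
  have h5 := sq_le_sq.1 h3
  rcases le_total 0 (x 0) with h0 | h0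
  · rw [abs_of_nonneg h0] at h4 h5
    have := abs_le.1 h4
    have := abs_le.1 h5
    exact mul_nonneg (by linarith) (by linarith)
  · rw [abs_of_nonpos h0] at h4 h5
    have := abs_le.1 h4
    have := abs_le.1 h5
    exact mul_nonneg_of_nonpos_of_nonpos (by linarith) (by linarith)

theorem nonneg_add : ∀ F ∈ torus.nonnegQuadrics, ∀ G ∈ torus.nonnegQuadrics,
    F + G ∈ torus.nonnegQuadrics := by
  intro F hF G hG x
  have h1 := hF x
  have h2 := hG x
  show 0 ≤ torus.evalAt x ((F : torus.CoordRing) + G)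
  rw [map_add]
  exact add_nonneg h1 h2

theorem nonneg_smul : ∀ c : ℝ, 0 ≤ c → ∀ F ∈ torus.nonnegQuadrics,
    c • F ∈ torus.nonnegQuadrics := by
  intro c hc F hF x
  have h1 := hF x
  obtain ⟨f, hf⟩ := Ideal.Quotient.mk_surjective (F : torus.CoordRing)
  have h2 : torus.evalAt x (F : torus.CoordRing) = eval x.1 f := by rw [← hf]; rfl
  have h3 : torus.evalAt x ((c • F : torus.piece 2) : torus.CoordRing) = eval x.1 (c • f) := by
    rw [Submodule.coe_smul, ← hf]; rfl
  rw [h3, smul_eval]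
  rw [h2] at h1
  exact mul_nonneg hc h1

theorem mem_nonneg_of (a b : ℝ) (h : ∀ x ∈ StubbornCore.V,
    0 ≤ a * eval x StubbornCore.F₁ + b * eval x F₂) :
    a • q₁ + b • q₂ ∈ torus.nonnegQuadrics := by
  intro x
  have hx := (torus_realCone x.1).1 x.2
  have h1 : ((a • q₁ + b • q₂ : torus.piece 2) : torus.CoordRing) =
      cls (C a * StubbornCore.F₁ + C b * F₂) := by
    rw [← smul_eq_C_mul, ← smul_eq_C_mul]
    rfl
  rw [h1, evalAt_cls]
  simpa using h _ hx

instance : Module.Finite ℝ (torus.piece 2) := by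
  rw [Module.Finite.iff_fg]
  exact (homogeneousSubmodule_fg (Fin 5) ℝ 2).map _

/-- **Q1 has a negative answer.**  For the totally real surface `X ⊆ ℙ⁴` with equations
`x₁² + x₂² = x₀² = x₃² + x₄²`, the cone of nonnegative quadrics has a face whose relative interior
contains both a stubborn quadric and a quadric that is not stubborn. -/
theorem main :
    ∃ X : TotallyRealVariety 4,
      X.realCone = {x | x 1 ^ 2 + x 2 ^ 2 = x 0 ^ 2 ∧ x 3 ^ 2 + x 4 ^ 2 = x 0 ^ 2} ∧
      ∃ 𝓕 : Set X.Quadrics, X.IsFaceOfCone 𝓕 ∧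
        (∃ F ∈ X.relInt 𝓕, X.Stubborn F) ∧ (∃ F ∈ X.relInt 𝓕, ¬ X.Stubborn F) := by
  have hq₂ : q₂ ∈ torus.nonnegQuadrics := by
    have := mem_nonneg_of 0 1 (fun x hx => by
      rw [eval_F₂, zero_mul, zero_add, one_mul]
      have := prod_nonneg hx 0 (by nlinarith [sq_nonneg (x 0)])
      simpa using this)
    simpa using this
  have hq₁ : q₁ ∈ torus.nonnegQuadrics := by
    have := mem_nonneg_of 1 0 (fun x hx => by
      rw [eval_F₁, zero_mul, add_zero, one_mul]
      have h1 := prod_nonneg hx 0 (by nlinarith [sq_nonneg (x 0)])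
      have h2 := prod_nonneg hx (x 1) (by nlinarith [hx.1, sq_nonneg (x 2)])
      nlinarith)
    simpa using this
  have h12 : (3 : ℝ) • q₂ - q₁ ∈ torus.nonnegQuadrics := by
    have := mem_nonneg_of (-1) 3 (fun x hx => by
      rw [eval_F₁, eval_F₂]
      have h2 := prod_nonneg hx (-(x 1)) (by nlinarith [hx.1, sq_nonneg (x 2)])
      nlinarith)
    convert this using 1
    module
  have h21 : q₁ - (1 : ℝ) • q₂ ∈ torus.nonnegQuadrics := by
    have := mem_nonneg_of 1 (-1) (fun x hx => by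
      rw [eval_F₁, eval_F₂]
      have h2 := prod_nonneg hx (x 1) (by nlinarith [hx.1, sq_nonneg (x 2)])
      nlinarith)
    convert this using 1
    module
  let 𝓕 := FaceLemma.minFace torus.nonnegQuadrics q₂
  have hface : IsFace torus.nonnegQuadrics 𝓕 := by
    refine ⟨⟨q₂, hq₂, 1, zero_le_one, ?_⟩,
      FaceLemma.convex_minFace nonneg_add nonneg_smul q₂,
      FaceLemma.isExtreme_minFace nonneg_add nonneg_smul q₂⟩
    rw [one_smul, sub_self]
    simpa using nonneg_smul 0 le_rfl _ hq₂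
  have hr₁ : q₁ ∈ relInterior 𝓕 :=
    FaceLemma.mem_relInterior_minFace nonneg_add nonneg_smul q₂ q₁ hq₂ hq₁ 3 1
      (by norm_num) one_pos h12 h21
  have hr₂ : q₂ ∈ relInterior 𝓕 := by
    refine FaceLemma.mem_relInterior_minFace nonneg_add nonneg_smul q₂ q₂ hq₂ hq₂ 1 1
      (by norm_num) one_pos ?_ ?_
    · rw [one_smul, sub_self]
      simpa using nonneg_smul 0 le_rfl _ hq₂
    · rw [one_smul, sub_self]
      simpa using nonneg_smul 0 le_rfl _ hq₂
  -- `q₂` is a sum of squares
  have hns : ¬ torus.Stubborn q₂ := by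
    intro hst
    refine hst.2 1 odd_one ?_
    refine ⟨2, ![cls (C (Real.sqrt 2)⁻¹ * (X 0 + X 3)), cls (C (Real.sqrt 2)⁻¹ * X 4)], ?_, ?_⟩
    · intro i
      fin_cases i
      · refine cls_mem ?_
        simpa using (isHomogeneous_C (Fin 5) (Real.sqrt 2)⁻¹).mul
          ((isHomogeneous_X ℝ (0 : Fin 5)).add (isHomogeneous_X ℝ 3))
      · refine cls_mem ?_
        simpa using (isHomogeneous_C (Fin 5) (Real.sqrt 2)⁻¹).mul (isHomogeneous_X ℝ (4 : Fin 5))
    · rw [pow_one, Fin.sum_univ_two]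
      show cls F₂ = cls (C (Real.sqrt 2)⁻¹ * (X 0 + X 3)) ^ 2 + cls (C (Real.sqrt 2)⁻¹ * X 4) ^ 2
      have h1 : cls (C (Real.sqrt 2)⁻¹ * (X 0 + X 3)) ^ 2 + cls (C (Real.sqrt 2)⁻¹ * X 4) ^ 2 =
          cls ((C (Real.sqrt 2)⁻¹ * (X 0 + X 3)) ^ 2 + (C (Real.sqrt 2)⁻¹ * X 4) ^ 2) := by
        simp only [cls, map_add, map_pow]
      rw [h1, cls_eq_iff]
      intro x hx
      rw [eval_F₂]
      simp only [map_add, map_mul, map_pow, eval_C, eval_X]
      have h2 : ((Real.sqrt 2)⁻¹) ^ 2 = 1 / 2 := by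
        rw [inv_pow, Real.sq_sqrt (by norm_num)]; norm_num
      obtain ⟨_, h4⟩ := hx
      linear_combination (-(x 0 + x 3) ^ 2 - x 4 ^ 2) * h2 - (1 / 2) * h4
  -- `q₁` is stubborn
  have hst : torus.Stubborn q₁ := by
    refine ⟨hq₁, ?_⟩
    rintro k hk ⟨r, G, hG, hsum⟩
    choose g hg hgG using hG
    refine StubbornCore.core hk g
      (fun i => (mem_homogeneousSubmodule k (g i)).1 (hg i)) ?_
    intro x hx
    have h1 : cls (StubbornCore.F₁ ^ k) = cls (∑ i, g i ^ 2) := by
      have h2 : ((q₁ : torus.CoordRing)) ^ k = cls (StubbornCore.F₁ ^ k) := by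
        show cls StubbornCore.F₁ ^ k = _
        simp only [cls, map_pow]
      rw [← h2, hsum]
      simp only [cls, map_sum, map_pow]
      refine Finset.sum_congr rfl fun i _ => ?_
      rw [← hgG i]
      rfl
    have h3 := (cls_eq_iff _ _).1 h1 x hx
    rw [map_pow, map_sum] at h3
    rw [h3]
    exact Finset.sum_congr rfl fun i _ => by rw [map_pow]
  exact ⟨torus, Set.ext fun x => torus_realCone x, 𝓕, hface, ⟨q₁, hr₁, hst⟩, ⟨q₂, hr₂, hns⟩⟩

end Pool.Agent.Helper98.Stubborn
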